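import Pool.Agent.H80.PK.FMain
import Pool.Agent.H99.PK.EX2
import Pool.Agent.H44.PK.KRD
import Pool.Agent.H62.PK.MK2
import Pool.Agent.H22.PK.KAP
import Pool.Agent.H14.PK.EN2
import Pool.Agent.H18.PK.OPE
import Pool.Agent.H50.PK.EXI

/-!
# K-theory of the L^p group algebras of a group of subexponential growth does not depend on p
-/

set_option autoImplicit false

namespace Pool.Agent.Results.MP_70b9d9_an.SubexponentialGrowth

open Pool.PK MeasureTheory
open scoped ENNReal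

/-- **Theorem.** Let `G` be a locally compact group in which every compact set has subexponential
growth. The K-groups of the completions of `C_c(G)` in the norms which lie between the norm of
`B(L^p(G))`, for some `p ∈ [1, ∞]`, and a multiple of the norm of `L¹(G)`, are all isomorphic; the
norms of `B^p_r(G)` and `B^{p,*}_r(G)` are of this kind. -/
theorem result :
    ∀ (G : Type) [Group G] [TopologicalSpace G] [IsTopologicalGroup G] [LocallyCompactSpace G]
      [T2Space G] [MeasurableSpace G] [BorelSpace G] (μ : Measure G) [μ.IsHaarMeasure],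
    Subexponential μ →
      (∀ N N' : (G → ℂ) → ℝ, Between μ N → Between μ N' →
        ∀ (A A' : Type) [NormedRing A] [NormedAlgebra ℂ A] [CompleteSpace A] [NormedRing A']
          [NormedAlgebra ℂ A'] [CompleteSpace A'] (i : (G → ℂ) → A) (i' : (G → ℂ) → A')
          (ε : A →+* ℂ) (ε' : A' →+* ℂ),
        IsUnitization μ N A i ε → IsUnitization μ N' A' i' ε' → SameK ε ε') ∧
      (∀ p : ℝ≥0∞, 1 ≤ p → ∀ N : (G → ℂ) → ℝ, (N = opNorm μ p ∨ N = opNormStar μ p) →
        Between μ N ∧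
        ∃ (A : Type) (_ : NormedRing A) (_ : NormedAlgebra ℂ A) (_ : CompleteSpace A)
          (i : (G → ℂ) → A) (ε : A →+* ℂ), IsUnitization μ N A i ε) ∧
      (∀ f : G → ℂ, InCc f → opNorm μ ∞ f = (eLpNorm f 1 μ).toReal) := by
  intro G _ _ _ _ _ _ _ μ _ hG
  have key := fun (N : (G → ℂ) → ℝ) (hN : Between μ N) (A : Type) [NormedRing A]
    [NormedAlgebra ℂ A] [CompleteSpace A] (i : (G → ℂ) → A) (ε : A →+* ℂ)
    (h : IsUnitization μ N A i ε) =>
    flatKey EX2 KRD (MK2 (K0S HFI0 HFF HFC0 HFN0 PTH0) (K0I INV HFI0 HFF HFC0 PTH0) (K1S INV)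
      (K1I INV) KB0 KB1) KAP EN2 OPE μ hG N hN A i ε h
  refine ⟨?_, ?_, ?_⟩
  · intro N N' hN hN' A A' _ _ _ _ _ _ i i' ε ε' h h'
    obtain ⟨⟨a⟩, ⟨b⟩⟩ := key N hN A i ε h
    obtain ⟨⟨a'⟩, ⟨b'⟩⟩ := key N' hN' A' i' ε' h'
    exact ⟨⟨a.symm.trans a'⟩, ⟨b.symm.trans b'⟩⟩
  · intro p hp N hN
    rcases hN with rfl | rfl
    · refine ⟨⟨p, hp, 1, fun f hf => ⟨le_rfl, ?_⟩⟩, ?_⟩
      · rw [one_mul]
        have h1 := (OPA0 G μ p hp).2.2.2 (⟨f, hf⟩ : CG μ)
        rw [(OPE G μ p _).1, (OPE G μ p _).2.2] at h1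
        exact h1
      · obtain ⟨i, hi⟩ := EXI G μ (opNorm μ p) (opS μ p hp) fun f => ((OPE G μ p f).1).symm
        exact ⟨Un (CP (opS μ p hp)), inferInstance, inferInstance, inferInstance, i, _, hi⟩
    · refine ⟨⟨p, hp, 1, fun f hf => ⟨le_max_left _ _, ?_⟩⟩, ?_⟩
      · rw [one_mul]
        have h1 := (ABO0 G μ p hp).2.2 hG (⟨f, hf⟩ : CG μ)
        rw [(OPE G μ p _).2.1, (OPE G μ p _).2.2] at h1
        exact h1
      · obtain ⟨i, hi⟩ := EXI G μ (opNormStar μ p) (stS μ p hp) fun f => ((OPE G μ p f).2.1).symm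
        exact ⟨Un (CP (stS μ p hp)), inferInstance, inferInstance, inferInstance, i, _, hi⟩
  · intro f hf
    have h1 := ONE OPA0 G μ (⟨f, hf⟩ : CG μ)
    rw [(OPE G μ ∞ _).1, (OPE G μ 1 _).2.2] at h1
    exact h1

end Pool.Agent.Results.MP_70b9d9_an.SubexponentialGrowth
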